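import Mathlib

/-!
# `k`-power domination in claw-free regular graphs: definitions

Graphs are finite and simple.
-/

set_option autoImplicit false

namespace Pool.Agent.J4H15.PD

open Finset
open scoped Classical

variable {V : Type} [Fintype V]

/-- The set of the neighbours of `v`. -/
noncomputable def nb (G : SimpleGraph V) (v : V) : Finset V := univ.filter fun w => G.Adj v w

/-- The closed neighbourhood `N[S]`: the vertices that are in `S` or have a neighbour in `S`. -/
noncomputable def nbc (G : SimpleGraph V) (S : Finset V) : Finset V :=
  univ.filter fun v => v ∈ S ∨ ∃ s ∈ S, G.Adj s v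

/-- `Reach G k S M`: starting with `N[S]`, the set `M` is obtained by finitely many applications of the
propagation rule: a vertex `v` of the current set `M` with at most `k` neighbours outside `M` puts all
its neighbours into `M`. -/
inductive Reach (G : SimpleGraph V) (k : ℕ) (S : Finset V) : Finset V → Prop
  | start : Reach G k S (nbc G S)
  | step (M : Finset V) (v : V) : Reach G k S M → v ∈ M → (nb G v \ M).card ≤ k →
      Reach G k S (M ∪ nb G v)

/-- `S` is a `k`-power dominating set: all vertices become monitored. -/
def PowerDominating (G : SimpleGraph V) (k : ℕ) (S : Finset V) : Prop := Reach G k S univ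

/-- The `k`-power domination number. -/
noncomputable def gammaP (G : SimpleGraph V) (k : ℕ) : ℕ :=
  sInf {m | ∃ S : Finset V, S.card = m ∧ PowerDominating G k S}

/-- There is no induced `K_{1,3}`: among any three neighbours of a vertex two are adjacent. -/
def ClawFree (G : SimpleGraph V) : Prop :=
  ∀ v a b c : V, G.Adj v a → G.Adj v b → G.Adj v c → a ≠ b → a ≠ c → b ≠ c →
    G.Adj a b ∨ G.Adj a c ∨ G.Adj b c

/-- `Bound r k`: every connected claw-free `r`-regular graph of order `n` has `k`-power domination
number at most `n / (r + 1)`. -/
def Bound (r k : ℕ) : Prop :=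
  ∀ (V : Type) [Fintype V] (G : SimpleGraph V), G.Connected → ClawFree G →
    (∀ v, (nb G v).card = r) → (r + 1) * gammaP G k ≤ Fintype.card V

end Pool.Agent.J4H15.PD
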