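import Pool.Agent.J4H15.PD.Defs

/-!
# The lower bound: a claw-free `(2 m + a - 1)`-regular graph with `6 m + 2 a` vertices in which no two
vertices form an `(m - 1)`-power dominating set

The vertices are in eight blobs `0, …, 7` in cyclic order, of sizes `a, m, m, m, m, a, m, m`. Every
blob is a clique, consecutive blobs are completely joined, with the exception of the blobs `2` and `3`,
between which there is an `a`-regular bipartite graph.
-/

set_option autoImplicit false

namespace Pool.Agent.J4H15.PD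

open Finset
open scoped Classical

/-- Sizes of the blobs. -/
def size (m a : ℕ) (l : Fin 8) : ℕ := if l = 0 ∨ l = 5 then a else m

/-- Equal or cyclically consecutive. -/
def rel (i j : Fin 8) : Bool := decide (j = i ∨ j = i + 1 ∨ i = j + 1)

/-- `j - i` is congruent modulo `m` to one of `0, …, a - 1`. -/
def circ (m a i j : ℕ) : Prop := (i ≤ j ∧ j < i + a) ∨ j + m < i + a

/-- Adjacency. -/
def A (m a : ℕ) (l : Fin 8) (i : ℕ) (l' : Fin 8) (i' : ℕ) : Prop :=
  (l ≠ l' ∨ i ≠ i') ∧ rel l l' = true ∧ (l = 2 → l' = 3 → circ m a i i') ∧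
    (l = 3 → l' = 2 → circ m a i' i)

/-- Vertices. -/
abbrev W (m a : ℕ) : Type := Σ l : Fin 8, Fin (size m a l)

theorem rel_symm : ∀ i j : Fin 8, rel i j = true → rel j i = true := by decide

/-- The graph. -/
def Ex (m a : ℕ) : SimpleGraph (W m a) where
  Adj x y := A m a x.1 x.2.val y.1 y.2.val
  symm := ⟨fun x y h => by
    obtain ⟨h1, h2, h3, h4⟩ := h
    exact ⟨h1.imp Ne.symm Ne.symm, rel_symm _ _ h2, fun p q => h4 q p, fun p q => h3 q p⟩⟩
  loopless := ⟨fun x h => by
    rcases h.1 with h | h <;> exact h rfl⟩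

theorem adj_iff {m a : ℕ} {x y : W m a} :
    (Ex m a).Adj x y ↔ A m a x.1 x.2.val y.1 y.2.val := Iff.rfl

theorem adj_of {m a : ℕ} {x y : W m a} (hne : x ≠ y) (h : rel x.1 y.1 = true)
    (h1 : ¬ (x.1 = 2 ∧ y.1 = 3)) (h2 : ¬ (x.1 = 3 ∧ y.1 = 2)) : (Ex m a).Adj x y := by
  refine ⟨?_, h, fun p q => absurd ⟨p, q⟩ h1, fun p q => absurd ⟨p, q⟩ h2⟩
  by_contra hcon
  push Not at hcon
  obtain ⟨p, q⟩ := hcon
  apply hne
  obtain ⟨l, i⟩ := x
  obtain ⟨l', i'⟩ := y
  simp only at p q
  subst p
  rw [Fin.ext q]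

/-- Two cliques cover the neighbourhood. -/
def exc : Fin 8 → Fin 8 := ![7, 0, 3, 2, 5, 6, 5, 0]

theorem exc_spec : ∀ v x y : Fin 8, rel v x = true → rel v y = true →
    (x = exc v ↔ y = exc v) → rel x y = true ∧ ¬ (x = 2 ∧ y = 3) ∧ ¬ (x = 3 ∧ y = 2) := by
  decide

theorem clawFree (m a : ℕ) : ClawFree (Ex m a) := by
  intro v x y z hx hy hz hxy hxz hyz
  have key : ∀ p q : W m a, (Ex m a).Adj v p → (Ex m a).Adj v q → p ≠ q →
      (p.1 = exc v.1 ↔ q.1 = exc v.1) → (Ex m a).Adj p q := by
    intro p q hp hq hpq he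
    obtain ⟨h1, h2, h3⟩ := exc_spec v.1 p.1 q.1 hp.2.1 hq.2.1 he
    exact adj_of hpq h1 h2 h3
  by_cases e1 : x.1 = exc v.1 <;> by_cases e2 : y.1 = exc v.1 <;> by_cases e3 : z.1 = exc v.1
  · exact Or.inl (key x y hx hy hxy (by simp [e1, e2]))
  · exact Or.inl (key x y hx hy hxy (by simp [e1, e2]))
  · exact Or.inr (Or.inl (key x z hx hz hxz (by simp [e1, e3])))
  · exact Or.inr (Or.inr (key y z hy hz hyz (by simp [e2, e3])))
  · exact Or.inr (Or.inr (key y z hy hz hyz (by simp [e2, e3])))
  · exact Or.inr (Or.inl (key x z hx hz hxz (by simp [e1, e3])))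
  · exact Or.inl (key x y hx hy hxy (by simp [e1, e2]))
  · exact Or.inl (key x y hx hy hxy (by simp [e1, e2]))

theorem card_fin (n : ℕ) (P : ℕ → Prop) [DecidablePred P] :
    (univ.filter fun i : Fin n => P i.val).card = ((range n).filter P).card := by
  rw [card_filter, card_filter, Fin.sum_univ_eq_sum_range (fun i => if P i then 1 else 0)]

/-- Number of neighbours of `(l, i)` in the blob `l'`. -/
def f (m a : ℕ) (l l' : Fin 8) : ℕ :=
  if rel l l' = false then 0 else if l = l' then size m a l - 1 else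
    if (l = 2 ∧ l' = 3) ∨ (l = 3 ∧ l' = 2) then a else size m a l'

theorem cnt {m a : ℕ} (ha : a ≤ m) (l l' : Fin 8) (i : ℕ) (hi : i < size m a l) :
    ((range (size m a l')).filter fun i' => A m a l i l' i').card = f m a l l' := by
  unfold f
  split_ifs with h1 h2 h3
  · rw [card_eq_zero, filter_eq_empty_iff]
    intro j _ hA
    rw [hA.2.1] at h1
    exact absurd h1 (by decide)
  · subst h2
    have : ((range (size m a l)).filter fun i' => A m a l i l i') = (range (size m a l)).erase i := by
      ext j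
      rw [mem_filter, mem_erase, and_comm]
      constructor
      · rintro ⟨hA, hj⟩
        rcases hA.1 with h | h
        · exact absurd rfl h
        · exact ⟨h.symm, hj⟩
      · rintro ⟨hA, hj⟩
        refine ⟨⟨Or.inr hA.symm, by simpa using h1, fun p q => ?_, fun p q => ?_⟩, hj⟩
        · rw [p] at q; exact absurd q (by decide)
        · rw [p] at q; exact absurd q (by decide)
    rw [this, card_erase_of_mem (mem_range.2 hi), card_range]
  · rcases h3 with ⟨rfl, rfl⟩ | ⟨rfl, rfl⟩
    · have hs : size m a 3 = m := by simp [size]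
      have hs2 : size m a 2 = m := by simp [size]
      rw [hs]
      rw [hs2] at hi
      have : ((range m).filter fun i' => A m a 2 i 3 i') =
          (Ico i (min (i + a) m)) ∪ (Ico 0 (i + a - m)) := by
        ext j
        simp only [mem_filter, mem_range, mem_union, mem_Ico, A, circ]
        have e1 : (rel 2 3 = true) := by decide
        have e2 : ¬ ((2 : Fin 8) = 3) := by decide
        simp only [e1, e2, false_imp_iff, ne_eq, not_false_eq_true, true_or, true_and,
          forall_true_left, and_true]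
        omega
      rw [this, card_union_of_disjoint, Nat.card_Ico, Nat.card_Ico]
      · omega
      · rw [disjoint_left]
        intro j hj hj'
        simp only [mem_Ico] at hj hj'
        omega
    · have hs : size m a 3 = m := by simp [size]
      have hs2 : size m a 2 = m := by simp [size]
      rw [hs2]
      rw [hs] at hi
      have : ((range m).filter fun i' => A m a 3 i 2 i') =
          (Ico (i + 1 - a) (i + 1)) ∪ (Ico (i + m + 1 - a) m) := by
        ext j
        simp only [mem_filter, mem_range, mem_union, mem_Ico, A, circ]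
        have e1 : (rel 3 2 = true) := by decide
        have e2 : ¬ ((3 : Fin 8) = 2) := by decide
        simp only [e1, e2, false_imp_iff, ne_eq, not_false_eq_true, true_or, true_and,
          forall_true_left, and_true]
        omega
      rw [this, card_union_of_disjoint, Nat.card_Ico, Nat.card_Ico]
      · omega
      · rw [disjoint_left]
        intro j hj hj'
        simp only [mem_Ico] at hj hj'
        omega
  · have : ((range (size m a l')).filter fun i' => A m a l i l' i') = range (size m a l') := by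
      rw [filter_eq_self]
      intro j _
      refine ⟨Or.inl h2, by simpa using h1, fun p q => absurd (Or.inl ⟨p, q⟩) h3,
        fun p q => absurd (Or.inr ⟨p, q⟩) h3⟩
    rw [this, card_range]

theorem degree {m a : ℕ} (ha : a ≤ m) (ha1 : 1 ≤ a) (v : W m a) :
    (nb (Ex m a) v).card = 2 * m + a - 1 := by
  have h1 : nb (Ex m a) v = (univ : Finset (Fin 8)).sigma fun l =>
      univ.filter fun i : Fin (size m a l) => A m a v.1 v.2.val l i.val := by
    ext ⟨l, i⟩
    simp [nb, adj_iff]
  rw [h1, card_sigma]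
  have h2 : ∀ l : Fin 8, (univ.filter fun i : Fin (size m a l) => A m a v.1 v.2.val l i.val).card =
      f m a v.1 l := by
    intro l
    rw [card_fin (size m a l) (fun i => A m a v.1 v.2.val l i)]
    exact cnt ha v.1 l v.2.val v.2.isLt
  rw [sum_congr rfl fun l _ => h2 l, Fin.sum_univ_eight]
  generalize v.1 = l
  have hr : ∀ x y : Fin 8, rel x y = decide (y = x ∨ y = x + 1 ∨ x = y + 1) := fun _ _ => rfl
  fin_cases l <;> simp [f, hr, size] <;> omega

theorem card_W (m a : ℕ) : Fintype.card (W m a) = 6 * m + 2 * a := by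
  rw [Fintype.card_sigma]
  simp only [Fintype.card_fin]
  rw [Fin.sum_univ_eight]
  simp [size]
  ring

theorem connected {m a : ℕ} (ha1 : 1 ≤ a) (ha : a ≤ m) : (Ex m a).Connected := by
  have hpos : ∀ l, 0 < size m a l := fun l => by unfold size; split_ifs <;> omega
  let b : W m a := ⟨1, ⟨0, hpos 1⟩⟩
  have key : ∀ l l' : Fin 8, rel l l' = true → ¬ (l = 2 ∧ l' = 3) → ¬ (l = 3 ∧ l' = 2) →
      (Ex m a).Reachable b ⟨l, ⟨0, hpos l⟩⟩ → ∀ j, (Ex m a).Reachable b ⟨l', j⟩ := by
    intro l l' h1 h2 h3 h4 j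
    by_cases he : (⟨l, ⟨0, hpos l⟩⟩ : W m a) = ⟨l', j⟩
    · rw [← he]; exact h4
    · exact h4.trans (adj_of he h1 h2 h3).reachable
  have h1 := key 1 1 (by decide) (by decide) (by decide) (SimpleGraph.Reachable.refl _)
  have h0 := key 1 0 (by decide) (by decide) (by decide) (h1 _)
  have h2 := key 1 2 (by decide) (by decide) (by decide) (h1 _)
  have h7 := key 0 7 (by decide) (by decide) (by decide) (h0 _)
  have h6 := key 7 6 (by decide) (by decide) (by decide) (h7 _)
  have h5 := key 6 5 (by decide) (by decide) (by decide) (h6 _)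
  have h4 := key 5 4 (by decide) (by decide) (by decide) (h5 _)
  have h3 := key 4 3 (by decide) (by decide) (by decide) (h4 _)
  have hall : ∀ l : Fin 8, ∀ i, (Ex m a).Reachable b ⟨l, i⟩ := by
    intro l
    fin_cases l
    exacts [h0, h1, h2, h3, h4, h5, h6, h7]
  have : Nonempty (W m a) := ⟨b⟩
  refine SimpleGraph.Connected.mk fun x y => (hall x.1 x.2).symm.trans (hall y.1 y.2)

section
variable {V : Type} [Fintype V]

theorem fort {G : SimpleGraph V} {k : ℕ} {F S : Finset V}
    (hF : ∀ v, v ∉ F → ∀ w ∈ F, G.Adj v w → k + 1 ≤ (F.filter fun x => G.Adj v x).card)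
    (h0 : Disjoint (nbc G S) F) {M : Finset V} (h : Reach G k S M) : Disjoint M F := by
  induction h with
  | start => exact h0
  | step M v _ hv hc ih =>
      rw [disjoint_union_left]
      refine ⟨ih, ?_⟩
      rw [disjoint_left]
      intro w hw hwF
      have h1 := hF v (disjoint_left.1 ih hv) w hwF (by simpa [nb] using hw)
      have h2 : (F.filter fun x => G.Adj v x) ⊆ nb G v \ M := by
        intro x hx
        rw [mem_filter] at hx
        exact mem_sdiff.2 ⟨by simpa [nb] using hx.2, disjoint_right.1 ih hx.1⟩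
      have := card_le_card h2
      omega

end

/-- Every power dominating set meets certain sets. -/
theorem hit {m a k : ℕ} (hk : k + 1 ≤ m) {S : Finset (W m a)}
    (hS : PowerDominating (Ex m a) k S) (X : Finset (Fin 8)) (hX : X.Nonempty)
    (hX' : ∀ l, l ∉ X → ∀ l' ∈ X, rel l l' = true →
      l' ≠ 0 ∧ l' ≠ 5 ∧ ¬ (l = 2 ∧ l' = 3) ∧ ¬ (l = 3 ∧ l' = 2))
    (hX0 : ∀ l ∈ X, l ≠ 0 ∧ l ≠ 5) :
    ∃ s ∈ S, ∃ l' ∈ X, rel s.1 l' = true := by
  by_contra hcon
  push Not at hcon
  let F : Finset (W m a) := univ.filter fun x => x.1 ∈ X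
  have hF : ∀ x, x ∈ F ↔ x.1 ∈ X := fun x => by simp [F]
  have h1 : ∀ v, v ∉ F → ∀ w ∈ F, (Ex m a).Adj v w →
      k + 1 ≤ (F.filter fun x => (Ex m a).Adj v x).card := by
    intro v hv w hw hadj
    obtain ⟨e1, e2, e3, e4⟩ := hX' v.1 (fun h => hv ((hF v).2 h)) w.1 ((hF w).1 hw) hadj.2.1
    have hs : size m a w.1 = m := by unfold size; rw [if_neg (by simp [e1, e2])]
    let φ : Fin (size m a w.1) → W m a := fun i => ⟨w.1, i⟩
    have hφ : Function.Injective φ := fun i j hij => by
      simpa [φ] using hij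
    have hsub : (univ : Finset (Fin (size m a w.1))).image φ ⊆
        F.filter fun x => (Ex m a).Adj v x := by
      intro x hx
      obtain ⟨i, _, rfl⟩ := mem_image.1 hx
      rw [mem_filter, hF]
      refine ⟨(hF w).1 hw, ?_⟩
      have hne : v ≠ φ i := fun h => hv ((hF v).2 (by rw [h]; exact (hF w).1 hw))
      exact adj_of (x := v) (y := φ i) hne hadj.2.1 e3 e4
    have := card_le_card hsub
    rw [card_image_of_injective _ hφ, card_univ, Fintype.card_fin, hs] at this
    omega
  have h2 : Disjoint (nbc (Ex m a) S) F := by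
    rw [disjoint_left]
    intro v hv hvF
    rw [hF] at hvF
    have hv' : v ∈ S ∨ ∃ s ∈ S, (Ex m a).Adj s v := by simpa [nbc] using hv
    rcases hv' with h | ⟨s, hs, h⟩
    · have := hcon v h v.1 hvF
      exact this ((by decide : ∀ l : Fin 8, rel l l = true) v.1)
    · exact hcon s hs v.1 hvF h.2.1
  have h3 := fort h1 h2 hS
  obtain ⟨l, hl⟩ := hX
  have hpos : 0 < size m a l := by
    unfold size
    rw [if_neg (by simp [(hX0 l hl).1, (hX0 l hl).2])]
    omega
  exact disjoint_left.1 h3 (mem_univ (⟨l, ⟨0, hpos⟩⟩ : W m a)) ((hF _).2 hl)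

theorem three_le {m a k : ℕ} (hk : k + 1 ≤ m) {S : Finset (W m a)}
    (hS : PowerDominating (Ex m a) k S) : 3 ≤ S.card := by
  obtain ⟨s, hs, l1, hl1, r1⟩ := hit hk hS {1} (by decide) (by decide) (by decide)
  obtain ⟨t, ht, l2, hl2, r2⟩ := hit hk hS {4} (by decide) (by decide) (by decide)
  obtain ⟨u, hu, l3, hl3, r3⟩ := hit hk hS {7} (by decide) (by decide) (by decide)
  obtain ⟨v, hv, l4, hl4, r4⟩ := hit hk hS {6} (by decide) (by decide) (by decide)
  obtain ⟨w, hw, l5, hl5, r5⟩ := hit hk hS {2, 3} (by decide) (by decide) (by decide)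
  rw [mem_singleton] at hl1 hl2 hl3 hl4
  subst hl1 hl2 hl3 hl4
  have hst : s ≠ t := by
    intro h
    rw [h] at r1
    revert r1 r2
    generalize t.1 = x
    revert x
    decide
  by_contra hlt
  have hall : ∀ e ∈ S, e = s ∨ e = t := by
    intro e he
    by_contra hne
    push Not at hne
    have hsub : ({s, t, e} : Finset (W m a)) ⊆ S := by
      intro x hx
      simp only [mem_insert, mem_singleton] at hx
      rcases hx with rfl | rfl | rfl <;> assumption
    have h1 := card_le_card hsub
    rw [card_insert_of_notMem (by simp [hst, hne.1.symm]),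
      card_insert_of_notMem (by simp [hne.2.symm]), card_singleton] at h1
    omega
  have r5' : rel w.1 2 = true ∨ rel w.1 3 = true := by
    simp only [mem_insert, mem_singleton] at hl5
    rcases hl5 with rfl | rfl
    · exact Or.inl r5
    · exact Or.inr r5
  have fin : ∀ x y : Fin 8, rel x 1 = true → rel y 4 = true →
      (rel x 7 = true ∨ rel y 7 = true) → (rel x 6 = true ∨ rel y 6 = true) →
      ((rel x 2 = true ∨ rel x 3 = true) ∨ (rel y 2 = true ∨ rel y 3 = true)) → False := by
    decide
  refine fin s.1 t.1 r1 r2 ?_ ?_ ?_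
  · rcases hall u hu with rfl | rfl
    · exact Or.inl r3
    · exact Or.inr r3
  · rcases hall v hv with rfl | rfl
    · exact Or.inl r4
    · exact Or.inr r4
  · rcases hall w hw with rfl | rfl
    · exact Or.inl r5'
    · exact Or.inr r5'

/-- The lower bound. -/
theorem not_bound {r k : ℕ} (hk : 1 ≤ k) (hkr : k < r / 2) : ¬ Bound r k := by
  intro hB
  -- `m = r / 2`, `a = r + 1 - 2 m`
  let m := r / 2
  let a := r + 1 - 2 * m
  have hm : m = r / 2 := rfl
  have ha : a = r + 1 - 2 * m := rfl
  have ha1 : 1 ≤ a := by omega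
  have ham : a ≤ m := by omega
  have h := hB (W m a) (Ex m a) (connected ha1 ham) (clawFree m a)
    (fun v => by rw [degree ham ha1]; omega)
  rw [card_W] at h
  have hne : {n | ∃ S : Finset (W m a), S.card = n ∧ PowerDominating (Ex m a) k S}.Nonempty := by
    refine ⟨_, univ, rfl, ?_⟩
    have e : nbc (Ex m a) univ = univ := by
      ext x
      simp [nbc]
    unfold PowerDominating
    rw [← e]
    nth_rewrite 1 [e]
    exact Reach.start
  obtain ⟨S, hS1, hS2⟩ := Nat.sInf_mem hne
  have h3 := three_le (show k + 1 ≤ m by omega) hS2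
  have h4 : 3 ≤ gammaP (Ex m a) k := by
    unfold gammaP
    rw [← hS1]
    exact h3
  have : (r + 1) * 3 ≤ (r + 1) * gammaP (Ex m a) k := Nat.mul_le_mul_left _ h4
  omega

end Pool.Agent.J4H15.PD
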