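import Pool.Agent.J4H15.PD.Defs

/-!
# The upper bound: `γ_{p,k}(G) ≤ n / (r + 1)` for claw-free `r`-regular graphs with `r ≤ 2 k + 1`

Call two vertices equivalent if they are joined by a chain of cliques with at least `k + 2` vertices.
If a vertex and its neighbours are monitored and no propagation is possible then the same holds for the
whole equivalence class. First take one vertex of each class with more than `r` elements. As long as
there are unmonitored vertices, either some unmonitored vertex has no monitored neighbour, or the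
unmonitored vertices lie in classes with at most `r` elements, at least `k + 1` of them in each, and
every unmonitored vertex has an unmonitored neighbour in another class; by counting, some class with
`d` unmonitored vertices has at least `d` unmonitored neighbours outside the class, and a vertex of
this class monitors `2 d ≥ 2 k + 2 ≥ r + 1` new vertices.
-/

set_option autoImplicit false

namespace Pool.Agent.J4H15.PD

open Finset
open scoped Classical

variable {V : Type} [Fintype V] {G : SimpleGraph V} {k r : ℕ}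

theorem mem_nb {v w : V} : w ∈ nb G v ↔ G.Adj v w := by simp [nb]

theorem mem_nbc {S : Finset V} {v : V} : v ∈ nbc G S ↔ v ∈ S ∨ ∃ s ∈ S, G.Adj s v := by simp [nbc]

/-- No propagation is possible. -/
def Closed (G : SimpleGraph V) (k : ℕ) (M : Finset V) : Prop :=
  ∀ v ∈ M, (nb G v \ M).card ≤ k → nb G v ⊆ M

/-- `v` and its neighbours are in `M`. -/
def Inn (G : SimpleGraph V) (M : Finset V) (v : V) : Prop := v ∈ M ∧ nb G v ⊆ M

theorem exists_closure (G : SimpleGraph V) (k : ℕ) (S : Finset V) :
    ∃ M, Reach G k S M ∧ Closed G k M := by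
  obtain ⟨M, hM, hmax⟩ := Finset.exists_max_image (univ.filter fun M : Finset V => Reach G k S M)
    Finset.card ⟨nbc G S, by simpa using Reach.start⟩
  refine ⟨M, by simpa using hM, ?_⟩
  intro v hv hc
  have h1 : Reach G k S (M ∪ nb G v) := Reach.step M v (by simpa using hM) hv hc
  have h2 := hmax (M ∪ nb G v) (by simpa using h1)
  have h3 : M = M ∪ nb G v := Finset.eq_of_subset_of_card_le subset_union_left h2
  rw [h3]
  exact subset_union_right

theorem nbc_sub {S M : Finset V} (h : Reach G k S M) : nbc G S ⊆ M := by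
  induction h with
  | start => exact Subset.refl _
  | step M v _ _ _ ih => exact ih.trans subset_union_left

theorem reach_sub {S M C : Finset V} (h : Reach G k S M) (hC : Closed G k C) (h0 : nbc G S ⊆ C) :
    M ⊆ C := by
  induction h with
  | start => exact h0
  | step M v _ hv hc ih =>
      refine union_subset ih (hC v (ih hv) (le_trans (card_le_card ?_) hc))
      exact sdiff_subset_sdiff (Subset.refl _) ih

theorem supp {S M : Finset V} (h : Reach G k S M) {v : V} (hv : v ∈ M) :
    Inn G M v ∨ ∃ w, G.Adj v w ∧ Inn G M w := by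
  induction h generalizing v with
  | start =>
      have key : ∀ s ∈ S, Inn G (nbc G S) s := fun s hs =>
        ⟨mem_nbc.2 (Or.inl hs), fun w hw => mem_nbc.2 (Or.inr ⟨s, hs, mem_nb.1 hw⟩)⟩
      rcases mem_nbc.1 hv with h | ⟨s, hs, h⟩
      · exact Or.inl (key v h)
      · exact Or.inr ⟨s, h.symm, key s hs⟩
  | step M u _ hu hc ih =>
      have mono : ∀ w, Inn G M w → Inn G (M ∪ nb G u) w := fun w hw =>
        ⟨mem_union_left _ hw.1, hw.2.trans subset_union_left⟩
      rcases mem_union.1 hv with h | h
      · rcases ih h with h | ⟨w, h1, h2⟩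
        · exact Or.inl (mono _ h)
        · exact Or.inr ⟨w, h1, mono _ h2⟩
      · exact Or.inr ⟨u, (mem_nb.1 h).symm, mem_union_left _ hu, subset_union_right⟩

/-- The two vertices are in a common clique with at least `k + 2` vertices. -/
def Big (G : SimpleGraph V) (k : ℕ) (x y : V) : Prop :=
  ∃ C : Finset V, k + 2 ≤ C.card ∧ (∀ a ∈ C, ∀ b ∈ C, a ≠ b → G.Adj a b) ∧ x ∈ C ∧ y ∈ C

/-- The class of `x`. -/
noncomputable def cls (G : SimpleGraph V) (k : ℕ) (x : V) : Finset V :=
  univ.filter fun y => Relation.ReflTransGen (Big G k) x y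

theorem mem_cls {x y : V} : y ∈ cls G k x ↔ Relation.ReflTransGen (Big G k) x y := by simp [cls]

omit [Fintype V] in
theorem big_symm {x y : V} (h : Big G k x y) : Big G k y x := by
  obtain ⟨C, h1, h2, h3, h4⟩ := h
  exact ⟨C, h1, h2, h4, h3⟩

theorem self_mem {x : V} : x ∈ cls G k x := mem_cls.2 Relation.ReflTransGen.refl

theorem cls_symm {x y : V} (h : y ∈ cls G k x) : x ∈ cls G k y := by
  rw [mem_cls] at *
  induction h with
  | refl => exact Relation.ReflTransGen.refl
  | tail _ hb ih => exact Relation.ReflTransGen.head (big_symm hb) ih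

theorem cls_trans {x y z : V} (h : y ∈ cls G k x) (h' : z ∈ cls G k y) : z ∈ cls G k x := by
  rw [mem_cls] at *
  exact h.trans h'

theorem cls_eq {x y : V} (h : y ∈ cls G k x) : cls G k y = cls G k x := by
  ext z
  exact ⟨fun h' => cls_trans h h', fun h' => cls_trans (cls_symm h) h'⟩

theorem cls_of_big {x y : V} (h : Big G k x y) : y ∈ cls G k x :=
  mem_cls.2 (Relation.ReflTransGen.single h)

theorem inn_cls {M : Finset V} (hM : Closed G k M) (hr : ∀ v, (nb G v).card = r)
    (hk : r ≤ 2 * k + 1) {x y : V} (hx : Inn G M x) (h : y ∈ cls G k x) : Inn G M y := by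
  rw [mem_cls] at h
  induction h with
  | refl => exact hx
  | tail _ hb ih =>
      rename_i b c _
      obtain ⟨C, h1, h2, h3, h4⟩ := hb
      have hC : C ⊆ M := by
        intro z hz
        by_cases hzb : z = b
        · rw [hzb]; exact ih.1
        · exact ih.2 (mem_nb.2 (h2 b h3 z hz (Ne.symm hzb)))
      refine ⟨hC h4, hM c (hC h4) ?_⟩
      have hs : C.erase c ⊆ nb G c := fun z hz =>
        mem_nb.2 (h2 c h4 z (mem_of_mem_erase hz) (ne_of_mem_erase hz).symm)
      have hsub : nb G c \ M ⊆ nb G c \ (C.erase c) :=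
        sdiff_subset_sdiff (Subset.refl _) ((erase_subset _ _).trans hC)
      have := card_le_card hsub
      rw [card_sdiff_of_subset hs, card_erase_of_mem h4, hr] at this
      omega

/-- One more vertex. -/
theorem add_one {S M : Finset V} (hS : Reach G k S M) (x : V) :
    ∃ M', Reach G k (insert x S) M' ∧ Closed G k M' ∧ M ⊆ M' ∧ Inn G M' x := by
  obtain ⟨M', h1, h2⟩ := exists_closure G k (insert x S)
  have h3 := nbc_sub h1
  refine ⟨M', h1, h2, reach_sub hS h2 ?_, h3 (mem_nbc.2 (Or.inl (mem_insert_self _ _))), ?_⟩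
  · intro v hv
    rcases mem_nbc.1 hv with h | ⟨s, hs, h⟩
    · exact h3 (mem_nbc.2 (Or.inl (mem_insert_of_mem h)))
    · exact h3 (mem_nbc.2 (Or.inr ⟨s, mem_insert_of_mem hs, h⟩))
  · intro v hv
    exact h3 (mem_nbc.2 (Or.inr ⟨x, mem_insert_self _ _, mem_nb.1 hv⟩))

/-- The second stage: if all large classes meet `S`, one more vertex monitors `r + 1` new ones. -/
theorem stage (hcf : ClawFree G) (hr : ∀ v, (nb G v).card = r) (hk : r ≤ 2 * k + 1)
    {S M : Finset V} (hS : Reach G k S M) (hM : Closed G k M)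
    (hL : ∀ x, r + 1 ≤ (cls G k x).card → ∃ s ∈ S, s ∈ cls G k x) (hne : M ≠ univ) :
    ∃ x, x ∉ M ∧ ∃ M', Reach G k (insert x S) M' ∧ Closed G k M' ∧ M.card + (r + 1) ≤ M'.card := by
  by_cases hA : ∃ x, x ∉ M ∧ ∀ u ∈ M, ¬ G.Adj u x
  · obtain ⟨x, hx, hu⟩ := hA
    obtain ⟨M', h1, h2, h3, h4⟩ := add_one hS x
    refine ⟨x, hx, M', h1, h2, ?_⟩
    have hd : Disjoint M (insert x (nb G x)) := by
      rw [disjoint_left]
      intro a ha hb
      rcases mem_insert.1 hb with h | h
      · exact hx (h ▸ ha)
      · exact hu a ha (mem_nb.1 h).symm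
    have hc : (insert x (nb G x)).card = r + 1 := by
      rw [card_insert_of_notMem (fun h => (G.loopless.irrefl x) (mem_nb.1 h)), hr]
    rw [← hc, ← card_union_of_disjoint hd]
    exact card_le_card (union_subset h3 (insert_subset h4.1 h4.2))
  · push Not at hA
    -- the boundary
    have hbd : ∀ u ∈ M, ∀ x, x ∉ M → G.Adj u x → k + 1 ≤ (nb G u \ M).card ∧
        ∀ y ∈ nb G u \ M, Big G k u y := by
      intro u hu x hx hux
      have hnot : ¬ nb G u ⊆ M := fun h => hx (h (mem_nb.2 hux))
      have hc : k + 1 ≤ (nb G u \ M).card := by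
        by_contra h
        exact hnot (hM u hu (by omega))
      refine ⟨hc, fun y hy => ?_⟩
      obtain ⟨w, hw1, hw2⟩ : ∃ w, G.Adj u w ∧ Inn G M w := by
        rcases supp hS hu with h | h
        · exact absurd h.2 hnot
        · exact h
      refine ⟨insert u (nb G u \ M), ?_, ?_, mem_insert_self _ _, mem_insert_of_mem hy⟩
      · rw [card_insert_of_notMem (fun h => (mem_sdiff.1 h).2 hu)]
        omega
      · intro a ha b hb hab
        rcases mem_insert.1 ha with ha | ha <;> rcases mem_insert.1 hb with hb | hb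
        · exact absurd (ha.trans hb.symm) hab
        · rw [ha]; exact mem_nb.1 (mem_sdiff.1 hb).1
        · rw [hb]; exact (mem_nb.1 (mem_sdiff.1 ha).1).symm
        · have ha' := mem_sdiff.1 ha
          have hb' := mem_sdiff.1 hb
          rcases hcf u a b w (mem_nb.1 ha'.1) (mem_nb.1 hb'.1) hw1 hab
            (fun h => ha'.2 (h ▸ hw2.1)) (fun h => hb'.2 (h ▸ hw2.1)) with h | h | h
          · exact h
          · exact absurd (hw2.2 (mem_nb.2 h.symm)) ha'.2
          · exact absurd (hw2.2 (mem_nb.2 h.symm)) hb'.2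
    have hsmall : ∀ x, x ∉ M → (cls G k x).card ≤ r := by
      intro x hx
      by_contra h
      obtain ⟨s, hs, hsx⟩ := hL x (by omega)
      have hin : Inn G M s := ⟨nbc_sub hS (mem_nbc.2 (Or.inl hs)),
        fun v hv => nbc_sub hS (mem_nbc.2 (Or.inr ⟨s, hs, mem_nb.1 hv⟩))⟩
      exact hx (inn_cls hM hr hk hin (cls_symm hsx)).1
    have hout : ∀ x, x ∉ M → ∃ o, o ∉ M ∧ G.Adj x o ∧ o ∉ cls G k x := by
      intro x hx
      have : ¬ nb G x ⊆ (cls G k x).erase x := by
        intro h
        have h1 := card_le_card h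
        rw [hr, card_erase_of_mem self_mem] at h1
        have h2 := hsmall x hx
        have h3 : 1 ≤ (cls G k x).card := card_pos.2 ⟨x, self_mem⟩
        omega
      obtain ⟨o, ho1, ho2⟩ := not_subset.1 this
      have hadj := mem_nb.1 ho1
      have ho3 : o ∉ cls G k x := fun h => ho2 (mem_erase.2 ⟨hadj.ne', h⟩)
      refine ⟨o, fun hoM => ?_, hadj, ho3⟩
      have := (hbd o hoM x hx hadj.symm).2 x (mem_sdiff.2 ⟨mem_nb.2 hadj.symm, hx⟩)
      exact ho3 (cls_symm (cls_of_big this))
    have hmany : ∀ x, x ∉ M → k + 1 ≤ (cls G k x \ M).card := by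
      intro x hx
      obtain ⟨u, hu, hux⟩ := hA x hx
      obtain ⟨h1, h2⟩ := hbd u hu x hx hux
      refine h1.trans (card_le_card ?_)
      intro y hy
      refine mem_sdiff.2 ⟨?_, (mem_sdiff.1 hy).2⟩
      have hx' : x ∈ cls G k u := cls_of_big (h2 x (mem_sdiff.2 ⟨mem_nb.2 hux, hx⟩))
      rw [cls_eq hx']
      exact cls_of_big (h2 y hy)
    -- counting
    let D : Finset V := univ \ M
    have hD : ∀ x, x ∈ D ↔ x ∉ M := fun x => by simp [D]
    let T : Finset (Finset V) := D.image (cls G k)
    let O : Finset V → Finset V := fun E => D.filter fun o => o ∉ E ∧ ∃ y ∈ E, y ∈ D ∧ G.Adj y o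
    have hDne : D.Nonempty := by
      rw [sdiff_nonempty]
      intro h
      exact hne (univ_subset_iff.1 h)
    have hTne : T.Nonempty := hDne.image _
    have hcov : D ⊆ T.biUnion O := by
      intro o ho
      obtain ⟨y, hy1, hy2, hy3⟩ := hout o ((hD o).1 ho)
      refine mem_biUnion.2 ⟨cls G k y, mem_image_of_mem _ ((hD y).2 hy1), ?_⟩
      exact mem_filter.2 ⟨ho, fun h => hy3 (cls_symm h), y, self_mem, (hD y).2 hy1, hy2.symm⟩
    have hdis : ∑ E ∈ T, (E \ M).card ≤ D.card := by
      rw [← card_biUnion]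
      · refine card_le_card (biUnion_subset.2 fun E _ x hx => (hD x).2 (mem_sdiff.1 hx).2)
      · intro E hE E' hE' hne'
        rw [Function.onFun, disjoint_left]
        intro z hz hz'
        obtain ⟨x, _, rfl⟩ := mem_image.1 hE
        obtain ⟨x', _, rfl⟩ := mem_image.1 hE'
        exact hne' ((cls_eq (mem_sdiff.1 hz).1).symm.trans (cls_eq (mem_sdiff.1 hz').1))
    obtain ⟨E, hE, hEO⟩ : ∃ E ∈ T, (E \ M).card ≤ (O E).card := by
      by_contra hcon
      push Not at hcon
      have h1 : ∑ E ∈ T, (O E).card < ∑ E ∈ T, (E \ M).card :=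
        sum_lt_sum_of_nonempty hTne hcon
      have h2 := card_le_card hcov
      have h3 : (T.biUnion O).card ≤ ∑ E ∈ T, (O E).card := card_biUnion_le
      omega
    obtain ⟨x, hxD, rfl⟩ := mem_image.1 hE
    have hxM := (hD x).1 hxD
    obtain ⟨M', h1, h2, h3, h4⟩ := add_one hS x
    refine ⟨x, hxM, M', h1, h2, ?_⟩
    have hin : ∀ y ∈ cls G k x, Inn G M' y := fun y hy => inn_cls h2 hr hk h4 hy
    have hd1 : Disjoint M (cls G k x \ M) := disjoint_sdiff
    have hd2 : Disjoint (M ∪ (cls G k x \ M)) (O (cls G k x)) := by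
      rw [disjoint_left]
      intro a ha hb
      have hb' := mem_filter.1 hb
      rcases mem_union.1 ha with h | h
      · exact ((hD a).1 hb'.1) h
      · exact hb'.2.1 (mem_sdiff.1 h).1
    have hsub : (M ∪ (cls G k x \ M)) ∪ O (cls G k x) ⊆ M' := by
      refine union_subset (union_subset h3 fun y hy => (hin y (mem_sdiff.1 hy).1).1) ?_
      intro o ho
      obtain ⟨_, _, y, hy, _, hyo⟩ := mem_filter.1 ho
      exact (hin y hy).2 (mem_nb.2 hyo)
    have hcard := card_le_card hsub
    rw [card_union_of_disjoint hd2, card_union_of_disjoint hd1] at hcard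
    have := hmany x hxM
    omega

/-- The upper bound. -/
theorem upper (hcf : ClawFree G) (hr : ∀ v, (nb G v).card = r) (hk : r ≤ 2 * k + 1) :
    ∃ S : Finset V, PowerDominating G k S ∧ (r + 1) * S.card ≤ Fintype.card V := by
  rcases isEmpty_or_nonempty V with hV | hV
  · refine ⟨∅, ?_, by simp⟩
    have h : nbc G ∅ = univ := Subsingleton.elim _ _
    unfold PowerDominating
    rw [← h]
    exact Reach.start
  -- representatives of the large classes
  let L : Finset (Finset V) := (univ.filter fun x => r + 1 ≤ (cls G k x).card).image (cls G k)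
  have hL : ∀ E ∈ L, ∃ x, E = cls G k x ∧ r + 1 ≤ (cls G k x).card := by
    intro E hE
    obtain ⟨x, hx, rfl⟩ := mem_image.1 hE
    exact ⟨x, rfl, (mem_filter.1 hx).2⟩
  choose! rep hrep using hL
  let S₁ : Finset V := L.image rep
  obtain ⟨M₁, hR₁, hC₁⟩ := exists_closure G k S₁
  have hmeet : ∀ x, r + 1 ≤ (cls G k x).card → ∃ s ∈ S₁, s ∈ cls G k x := by
    intro x hx
    have hE : cls G k x ∈ L := mem_image_of_mem _ (mem_filter.2 ⟨mem_univ _, hx⟩)
    refine ⟨rep (cls G k x), mem_image_of_mem _ hE, ?_⟩
    have h := (hrep (cls G k x) hE).1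
    have h' : rep (cls G k x) ∈ cls G k (rep (cls G k x)) := self_mem
    rwa [← h] at h'
  have hinS : ∀ s ∈ S₁, Inn G M₁ s := fun s hs => ⟨nbc_sub hR₁ (mem_nbc.2 (Or.inl hs)),
        fun v hv => nbc_sub hR₁ (mem_nbc.2 (Or.inr ⟨s, hs, mem_nb.1 hv⟩))⟩
  have hcard₁ : (r + 1) * S₁.card ≤ M₁.card := by
    have h1 : S₁.card ≤ L.card := card_image_le
    have h2 : ∑ E ∈ L, E.card ≤ M₁.card := by
      have hEq : ∑ E ∈ L, E.card = (L.biUnion id).card := by
        rw [card_biUnion]
        · rfl
        · intro E hE E' hE' hne'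
          rw [Function.onFun, disjoint_left]
          intro z hz hz'
          rw [id] at hz hz'
          rw [(hrep E hE).1] at hz
          rw [(hrep E' hE').1] at hz'
          exact hne' ((hrep E hE).1.trans ((cls_eq hz).symm.trans
            ((cls_eq hz').trans (hrep E' hE').1.symm)))
      rw [hEq]
      refine card_le_card (biUnion_subset.2 fun E hE x hx => ?_)
      rw [id, (hrep E hE).1] at hx
      exact (inn_cls hC₁ hr hk (hinS _ (mem_image_of_mem _ hE)) hx).1
    have h3 : ∑ _E ∈ L, (r + 1) ≤ ∑ E ∈ L, E.card := sum_le_sum fun E hE => by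
      conv_rhs => rw [(hrep E hE).1]
      exact (hrep E hE).2
    rw [sum_const, smul_eq_mul] at h3
    calc (r + 1) * S₁.card ≤ (r + 1) * L.card := Nat.mul_le_mul_left _ h1
      _ ≤ _ := by rw [mul_comm]; exact h3.trans h2
  -- induction
  have main : ∀ n : ℕ, ∀ S M : Finset V, Fintype.card V - M.card ≤ n → Reach G k S M →
      Closed G k M → (∀ x, r + 1 ≤ (cls G k x).card → ∃ s ∈ S, s ∈ cls G k x) →
      (r + 1) * S.card ≤ M.card →
      ∃ S : Finset V, PowerDominating G k S ∧ (r + 1) * S.card ≤ Fintype.card V := by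
    intro n
    induction n with
    | zero =>
        intro S M hn hR _ _ hc
        have hM : M = univ := (card_eq_iff_eq_univ M).1 (le_antisymm (card_le_univ M) (by omega))
        subst hM
        exact ⟨S, hR, by rwa [card_univ] at hc⟩
    | succ n ih =>
        intro S M hn hR hC hm hc
        by_cases hM : M = univ
        · subst hM
          exact ⟨S, hR, by rwa [card_univ] at hc⟩
        · obtain ⟨x, hx, M', h1, h2, h3⟩ := stage hcf hr hk hR hC hm hM
          refine ih (insert x S) M' (by omega) h1 h2 (fun y hy => ?_) ?_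
          · obtain ⟨s, hs, h⟩ := hm y hy
            exact ⟨s, mem_insert_of_mem hs, h⟩
          · have := card_insert_le x S
            calc (r + 1) * (insert x S).card ≤ (r + 1) * (S.card + 1) := Nat.mul_le_mul_left _ this
              _ = (r + 1) * S.card + (r + 1) := by ring
              _ ≤ M'.card := by omega
  exact main _ S₁ M₁ le_rfl hR₁ hC₁ hmeet hcard₁

/-- The upper bound for the power domination number. -/
theorem gammaP_le (hcf : ClawFree G) (hr : ∀ v, (nb G v).card = r) (hk : r ≤ 2 * k + 1) :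
    (r + 1) * gammaP G k ≤ Fintype.card V := by
  obtain ⟨S, h1, h2⟩ := upper hcf hr hk
  have h3 : gammaP G k ≤ S.card :=
    Nat.sInf_le (show S.card ∈ {m | ∃ S : Finset V, S.card = m ∧ PowerDominating G k S} from
      ⟨S, rfl, h1⟩)
  exact (Nat.mul_le_mul_left _ h3).trans h2

end Pool.Agent.J4H15.PD
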